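import Pool.Agent.Helper62.MonoW.Main

/-!
# The Thom–Sebastiani formula for sums with a nondegenerate quadratic form in `2k` variables,
solved for the zeta function of `f`
-/

namespace Mono

open Finset

/-- `s ↦ Z(s - k)`. -/
noncomputable def shiftR (k : ℕ) (Z : RatFunc ℂ) : RatFunc ℂ :=
  algebraMap (Polynomial ℂ) (RatFunc ℂ) (Z.num.comp (Polynomial.X - Polynomial.C (k : ℂ))) /
    algebraMap (Polynomial ℂ) (RatFunc ℂ) (Z.denom.comp (Polynomial.X - Polynomial.C (k : ℂ)))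

/-- Let `F = f + z_1 z_{k+1} + … + z_k z_{2k}` and `Z` the local topological zeta function of `F`.
By the Thom–Sebastiani formula of Denef and Loeser,
`Z(s) = k / ((s+1)(s+k)) + s(s+k+1) / ((s+1)(s+k)) · Z_f(s+k)`,
i.e. `Z_f(s) = (s (s+1-k) Z(s-k) - k) / ((s-k)(s+1))`. -/
noncomputable def desus (k : ℕ) (Z : RatFunc ℂ) : RatFunc ℂ :=
  (RatFunc.X * (RatFunc.X + 1 - RatFunc.C (k : ℂ)) * shiftR k Z - RatFunc.C (k : ℂ)) /
    ((RatFunc.X - RatFunc.C (k : ℂ)) * (RatFunc.X + 1))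

namespace Stab

theorem denom_desus {k : ℕ} {Z : RatFunc ℂ} {s : ℂ} (h : (desus k Z).denom.eval s = 0) :
    s = k ∨ s = -1 ∨ Z.denom.eval (s - k) = 0 := by
  classical
  set Q : Polynomial ℂ := Z.denom.comp (Polynomial.X - Polynomial.C (k : ℂ)) with hQ
  set P : Polynomial ℂ := Z.num.comp (Polynomial.X - Polynomial.C (k : ℂ)) with hP
  have hZ : Z.denom ≠ 0 := RatFunc.denom_ne_zero Z
  have hQ0 : Q ≠ 0 := by
    intro h0
    rw [hQ, Polynomial.comp_eq_zero_iff] at h0
    rcases h0 with h0 | ⟨_, h0⟩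
    · exact hZ h0
    · have h1 := congrArg (fun p : Polynomial ℂ => p.coeff 1) h0
      simp at h1
  have hQ1 : algebraMap (Polynomial ℂ) (RatFunc ℂ) Q ≠ 0 := by
    simpa using hQ0
  have h1 : desus k Z = algebraMap (Polynomial ℂ) (RatFunc ℂ)
      (Polynomial.X * (Polynomial.X + 1 - Polynomial.C (k : ℂ)) * P - Polynomial.C (k : ℂ) * Q) /
      algebraMap (Polynomial ℂ) (RatFunc ℂ)
        (Q * ((Polynomial.X - Polynomial.C (k : ℂ)) * (Polynomial.X + 1))) := by
    unfold desus shiftR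
    rw [← hQ, ← hP]
    simp only [map_mul, map_add, map_sub, map_one, RatFunc.algebraMap_X, RatFunc.algebraMap_C]
    rw [show RatFunc.X * (RatFunc.X + 1 - RatFunc.C (k : ℂ)) *
          (algebraMap (Polynomial ℂ) (RatFunc ℂ) P / algebraMap (Polynomial ℂ) (RatFunc ℂ) Q) -
          RatFunc.C (k : ℂ) =
        (RatFunc.X * (RatFunc.X + 1 - RatFunc.C (k : ℂ)) *
          algebraMap (Polynomial ℂ) (RatFunc ℂ) P -
          RatFunc.C (k : ℂ) * algebraMap (Polynomial ℂ) (RatFunc ℂ) Q) /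
          algebraMap (Polynomial ℂ) (RatFunc ℂ) Q by
      field_simp]
    rw [div_div]
  rw [h1] at h
  obtain ⟨c, hc⟩ := RatFunc.denom_div_dvd
    (Polynomial.X * (Polynomial.X + 1 - Polynomial.C (k : ℂ)) * P - Polynomial.C (k : ℂ) * Q)
    (Q * ((Polynomial.X - Polynomial.C (k : ℂ)) * (Polynomial.X + 1)))
  have h2 := congrArg (Polynomial.eval s) hc
  rw [Polynomial.eval_mul (p := RatFunc.denom _), h, zero_mul] at h2
  simp only [Polynomial.eval_mul, Polynomial.eval_add, Polynomial.eval_sub, Polynomial.eval_X,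
    Polynomial.eval_one, Polynomial.eval_C, mul_eq_zero, hQ, Polynomial.eval_comp] at h2
  rcases h2 with h2 | h2 | h2
  · exact Or.inr (Or.inr h2)
  · exact Or.inl (sub_eq_zero.1 h2)
  · exact Or.inr (Or.inl (eq_neg_of_add_eq_zero_left h2))

theorem exp_shift (s : ℂ) (k : ℕ) :
    Complex.exp (2 * Real.pi * Complex.I * (s - k)) = Complex.exp (2 * Real.pi * Complex.I * s) := by
  rw [show 2 * (Real.pi : ℂ) * Complex.I * (s - k) =
    2 * Real.pi * Complex.I * s - k * (2 * Real.pi * Complex.I) by ring]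
  rw [Complex.exp_sub, Complex.exp_nat_mul_two_pi_mul_I, div_one]

theorem int_shift (N : ℕ) (s : ℂ) (k : ℕ) :
    (∃ j : ℤ, (N : ℂ) * (s - k) = j) ↔ ∃ j : ℤ, (N : ℂ) * s = j := by
  constructor
  · rintro ⟨j, hj⟩
    refine ⟨j + N * k, ?_⟩
    push_cast
    rw [← hj]; ring
  · rintro ⟨j, hj⟩
    refine ⟨j - N * k, ?_⟩
    push_cast
    rw [← hj]; ring

theorem multV_shift {n : ℕ} (A : Finset (Fin n → ℤ)) (s : ℂ) (k : ℕ) :
    multV A (s - k) = multV A s := by
  classical
  unfold multV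
  congr 1
  refine Finset.sum_congr ?_ fun _ _ => rfl
  ext φ
  simp only [mem_filter, int_shift]

theorem kapSum_shift {n r : ℕ} (p : Fin r → PointData n) (par : Fin r → Option (Fin r))
    (v : Option (Fin r)) (s : ℂ) (k : ℕ) : kapSum p par v (s - k) = kapSum p par v s := by
  classical
  unfold kapSum
  refine Finset.sum_congr ?_ fun _ _ => rfl
  ext i
  simp only [mem_filter, int_shift]

end Stab

end Mono
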