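import Pool.Agent.Helper92.MonoStab.Stab
import Pool.Agent.Helper20.Mono.Final3

/-!
# Functions on smooth subgerms: the polynomial `h + ∑ λ_j g_j`
-/

namespace Mono

open Finset

/-- `F = h(x) + ∑ λ_j g_j(x)`, a polynomial in the `N + k` variables `x_1, …, x_N, λ_1, …, λ_k`. -/
noncomputable def lagr {N k : ℕ} (h : MvPolynomial (Fin N) ℂ) (g : Fin k → MvPolynomial (Fin N) ℂ) :
    MvPolynomial (Fin (N + k)) ℂ :=
  MvPolynomial.rename (Fin.castAdd k) h +
    ∑ j, MvPolynomial.X (Fin.natAdd N j) * MvPolynomial.rename (Fin.castAdd k) (g j)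

namespace Stab

theorem lagr_coeff_zero {N k : ℕ} (h : MvPolynomial (Fin N) ℂ)
    (g : Fin k → MvPolynomial (Fin N) ℂ) (h0 : h.coeff 0 = 0) : (lagr h g).coeff 0 = 0 := by
  have h1 : MvPolynomial.constantCoeff (lagr h g) = 0 := by
    unfold lagr
    rw [map_add, map_sum]
    simp only [map_mul, MvPolynomial.constantCoeff_X, zero_mul, Finset.sum_const_zero, add_zero,
      MvPolynomial.constantCoeff_rename]
    simpa [MvPolynomial.constantCoeff_eq] using h0
  simpa [MvPolynomial.constantCoeff_eq] using h1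

theorem lagr_ne_zero {N k : ℕ} (h : MvPolynomial (Fin N) ℂ)
    (g : Fin k → MvPolynomial (Fin N) ℂ) (hh : h ≠ 0) : lagr h g ≠ 0 := by
  intro h0
  apply hh
  have h1 := congrArg (MvPolynomial.aeval (fun i : Fin (N + k) =>
    Fin.addCases (motive := fun _ => MvPolynomial (Fin N) ℂ) (fun a => MvPolynomial.X a)
      (fun _ => 0) i)) h0
  unfold lagr at h1
  rw [map_add, map_sum, map_zero] at h1
  simp only [map_mul, MvPolynomial.aeval_X, Fin.addCases_right, zero_mul, Finset.sum_const_zero,
    add_zero, MvPolynomial.aeval_rename] at h1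
  have h2 : ((fun i : Fin (N + k) =>
      Fin.addCases (motive := fun _ => MvPolynomial (Fin N) ℂ) (fun a => MvPolynomial.X a)
        (fun _ => 0) i) ∘ Fin.castAdd k) = (MvPolynomial.X : Fin N → MvPolynomial (Fin N) ℂ) := by
    funext a
    simp
  rw [h2, MvPolynomial.aeval_X_left_apply] at h1
  exact h1

end Stab

end Mono
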